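import Pool.Agent.K1H35.JA.Stm

/-! Project JA, piece CARA: Caratheodory's theorem for integer cones. -/

set_option autoImplicit false

namespace Pool.Agent.K1H56.JA

open Finset Pool.Agent.K1H35.JA

lemma cz_inj {k : ℕ} : Function.Injective (cz : (Fin k → ℕ) → (Fin k → ℤ)) := by
  intro x y h
  funext j
  have := congrFun h j
  simpa [cz] using this

lemma cz_sum {k : ℕ} (B : Finset (Fin k → ℕ)) (c : (Fin k → ℕ) → ℕ) :
    cz (∑ p ∈ B, c p • p) = ∑ p ∈ B, (c p : ℤ) • cz p := by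
  funext j
  simp [cz, Finset.sum_apply]

lemma M1_pos {k m : ℕ} (hm : 1 ≤ m) : 1 ≤ M1 k m := by
  unfold M1
  exact Nat.one_le_iff_ne_zero.mpr (Nat.mul_ne_zero (Nat.factorial_ne_zero k)
    (pow_ne_zero k (by omega)))

/-- a relation between the vectors of `H` -/
lemma relation (hF : S_FUN) {k m : ℕ} (hm : 1 ≤ m) (H : Finset (Fin k → ℕ))
    (hH : ∀ p ∈ H, ∀ j, p j ≤ m)
    (hdep : ¬ LinearIndependent ℤ (fun p : H => cz (p : Fin k → ℕ))) :
    ∃ d : (Fin k → ℕ) → ℤ, (∀ p, p ∉ H → d p = 0) ∧ (∀ p, |d p| ≤ (M0 k m : ℤ)) ∧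
      (∃ p ∈ H, d p < 0) ∧ ∑ p ∈ H, d p • cz p = 0 := by
  classical
  obtain ⟨s, hs, hmax⟩ := exists_maximal_linearIndepOn ℤ (fun p : H => cz (p : Fin k → ℕ))
  have hne : ∃ q : H, q ∉ s := by
    by_contra hall
    push Not at hall
    have : s = Set.univ := Set.eq_univ_of_forall hall
    rw [this] at hs
    exact hdep (linearIndepOn_univ_iff.mp hs)
  obtain ⟨q, hq⟩ := hne
  obtain ⟨z0, hz0, hspan⟩ := hmax q hq
  set P2 : Finset (Fin k → ℕ) := H.filter (fun p => ∃ h : p ∈ H, (⟨p, h⟩ : H) ∈ s) with hP2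
  set P1 : Finset (Fin k → ℤ) := P2.image cz with hP1
  have hset : (P1 : Set (Fin k → ℤ)) = (fun p : H => cz (p : Fin k → ℕ)) '' s := by
    ext x
    simp only [hP1, hP2, Finset.coe_image, Set.mem_image, Finset.mem_coe, Finset.mem_filter,
      Subtype.exists]
    constructor
    · rintro ⟨p, ⟨hp, h, hps⟩, rfl⟩
      exact ⟨p, h, hps, rfl⟩
    · rintro ⟨p, h, hps, rfl⟩
      exact ⟨p, ⟨h, h, hps⟩, rfl⟩
  have hLI : LinearIndependent ℤ (fun p : P1 => (p : Fin k → ℤ)) := by
    have h1 : LinearIndepOn ℤ id (P1 : Set (Fin k → ℤ)) := by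
      rw [hset]
      exact hs.id_image
    exact h1
  have hqH : (q : Fin k → ℕ) ∈ H := q.2
  have hqP2 : (q : Fin k → ℕ) ∉ P2 := by
    simp only [hP2, Finset.mem_filter, not_and, not_exists]
    intro _ h
    exact hq
  have hP1b : ∀ p ∈ P1, ∀ j, |p j| ≤ (m : ℤ) := by
    intro p hp j
    obtain ⟨x, hx, rfl⟩ := Finset.mem_image.mp hp
    have hx' := (Finset.mem_filter.mp hx).1
    have := hH x hx' j
    simp only [cz, Nat.abs_cast]
    exact_mod_cast this
  obtain ⟨Δ, a, Z, hΔ, hΔM, ha, -, -, hZ, hrep⟩ := hF k m hm P1 hP1b hLI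
  have hz : ∀ ζ ∈ Z, ζ ⬝ᵥ cz (q : Fin k → ℕ) = 0 := by
    intro ζ hζ
    have h1 : ∀ x ∈ Submodule.span ℤ ((fun p : H => cz (p : Fin k → ℕ)) '' s), ζ ⬝ᵥ x = 0 := by
      intro x hx
      rw [← hset] at hx
      induction hx using Submodule.span_induction with
      | mem x hx => exact hZ ζ hζ x hx
      | zero => simp
      | add x y _ _ h1 h2 => rw [dotProduct_add, h1, h2, add_zero]
      | smul c x _ h1 => rw [dotProduct_smul, h1, smul_zero]
    have h2 := h1 _ hspan
    rw [dotProduct_smul, smul_eq_mul] at h2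
    exact (mul_eq_zero.mp h2).resolve_left hz0
  have hrel := hrep (cz (q : Fin k → ℕ)) hz
  rw [hP1, Finset.sum_image (fun x _ y _ h => cz_inj h)] at hrel
  set d : (Fin k → ℕ) → ℤ := fun p => if p = (q : Fin k → ℕ) then -Δ else
    if p ∈ P2 then a (cz p) ⬝ᵥ cz (q : Fin k → ℕ) else 0 with hd
  have hM : ((M0 k m : ℕ) : ℤ) = ((k : ℤ) * m + 1) * (M1 k m : ℤ) := by
    unfold M0
    push_cast
    ring
  have hkm : (0 : ℤ) ≤ (k : ℤ) * m := by positivity
  have hM1 : (1 : ℤ) ≤ (M1 k m : ℤ) := by exact_mod_cast M1_pos hm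
  refine ⟨d, ?_, ?_, ⟨q, hqH, ?_⟩, ?_⟩
  · intro p hp
    have h1 : p ≠ (q : Fin k → ℕ) := fun h => hp (h ▸ hqH)
    have h2 : p ∉ P2 := fun h => hp (Finset.mem_filter.mp h).1
    simp only [hd, if_neg h1, if_neg h2]
  · intro p
    by_cases h1 : p = (q : Fin k → ℕ)
    · simp only [hd, if_pos h1]
      rw [abs_neg, abs_of_pos hΔ, hM]
      nlinarith
    · by_cases h2 : p ∈ P2
      · simp only [hd, if_neg h1, if_pos h2]
        have h3 : |a (cz p) ⬝ᵥ cz (q : Fin k → ℕ)| ≤ ∑ j : Fin k, (M1 k m : ℤ) * m := by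
          unfold dotProduct
          refine (Finset.abs_sum_le_sum_abs _ _).trans (Finset.sum_le_sum fun j _ => ?_)
          rw [abs_mul]
          refine mul_le_mul (ha _ (Finset.mem_image_of_mem _ h2) j) ?_ (abs_nonneg _) (by positivity)
          simp only [cz, Nat.abs_cast]
          exact_mod_cast hH _ hqH j
        rw [Finset.sum_const, Finset.card_univ, Fintype.card_fin, nsmul_eq_mul] at h3
        rw [hM]
        nlinarith
      · simp only [hd, if_neg h1, if_neg h2, abs_zero]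
        positivity
  · simp only [hd, if_true]
    omega
  · rw [← Finset.add_sum_erase _ _ hqH]
    have h1 : ∑ p ∈ H.erase (q : Fin k → ℕ), d p • cz p =
        ∑ p ∈ P2, (a (cz p) ⬝ᵥ cz (q : Fin k → ℕ)) • cz p := by
      symm
      have hsub : P2 ⊆ H.erase (q : Fin k → ℕ) := by
        intro p hp
        refine Finset.mem_erase.mpr ⟨fun h => hqP2 (h ▸ hp), (Finset.mem_filter.mp hp).1⟩
      have h2 : ∑ p ∈ P2, (a (cz p) ⬝ᵥ cz (q : Fin k → ℕ)) • cz p = ∑ p ∈ P2, d p • cz p := by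
        refine Finset.sum_congr rfl fun p hp => ?_
        have h1 : p ≠ (q : Fin k → ℕ) := fun h => hqP2 (h ▸ hp)
        simp only [hd, if_neg h1, if_pos hp]
      rw [h2]
      refine Finset.sum_subset hsub fun p hp hp2 => ?_
      have h1 : p ≠ (q : Fin k → ℕ) := (Finset.mem_erase.mp hp).1
      simp only [hd, if_neg h1, if_neg hp2, zero_smul]
    rw [h1, ← hrel]
    simp only [hd, if_true, neg_smul]
    exact neg_add_cancel _

theorem t_CARA (hF : S_FUN) : S_CARA := by
  classical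
  intro k m P hm hP y hy
  set Box : Finset (Fin k → ℕ) := Fintype.piFinset (fun _ : Fin k => Finset.range (m + 1))
    with hBox
  set B : Finset (Fin k → ℕ) := Box.filter (· ∈ P) with hB
  have hBP : (B : Set (Fin k → ℕ)) = P := by
    ext p
    simp only [hB, hBox, Finset.coe_filter, Fintype.mem_piFinset, Finset.mem_range,
      Set.mem_ofPred_eq]
    constructor
    · rintro ⟨_, h⟩
      exact h
    · intro h
      exact ⟨fun j => Nat.lt_succ_of_le (hP p h j), h⟩
  have hBm : ∀ p ∈ B, ∀ j, p j ≤ m := by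
    intro p hp j
    exact hP p (by rw [← hBP]; exact hp) j
  have hBcard : B.card ≤ (m + 1) ^ k := by
    refine (Finset.card_filter_le _ _).trans ?_
    rw [hBox, Fintype.card_piFinset]
    simp
  have hy' : ∃ c : (Fin k → ℕ) → ℕ, ∑ p ∈ B, c p • p = y := by
    rw [← hBP] at hy
    obtain ⟨c, -, hc⟩ := AddSubmonoid.mem_closure_finset.mp hy
    exact ⟨c, hc⟩
  -- minimal number of large coefficients
  have hex : ∃ N : ℕ, ∃ c : (Fin k → ℕ) → ℕ, ∑ p ∈ B, c p • p = y ∧
      (B.filter (fun p => M0 k m ≤ c p)).card = N := by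
    obtain ⟨c, hc⟩ := hy'
    exact ⟨_, c, hc, rfl⟩
  obtain ⟨c, hc, hcard⟩ := Nat.find_spec hex
  have hmin : ∀ c' : (Fin k → ℕ) → ℕ, ∑ p ∈ B, c' p • p = y →
      (B.filter (fun p => M0 k m ≤ c p)).card ≤ (B.filter (fun p => M0 k m ≤ c' p)).card := by
    intro c' hc'
    rw [hcard]
    exact Nat.find_min' hex ⟨c', hc', rfl⟩
  set H : Finset (Fin k → ℕ) := B.filter (fun p => M0 k m ≤ c p) with hHdef
  have hHB : H ⊆ B := Finset.filter_subset _ _
  have hLI : LinearIndependent ℤ (fun p : H => cz (p : Fin k → ℕ)) := by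
    by_contra hdep
    obtain ⟨d, hd0, hdM, ⟨q, hqH, hdq⟩, hsum⟩ :=
      relation hF hm H (fun p hp => hBm p (hHB hp)) hdep
    have hsumB : ∑ p ∈ B, d p • cz p = 0 := by
      rw [← hsum]
      symm
      refine Finset.sum_subset hHB fun p _ hp => ?_
      rw [hd0 p hp, zero_smul]
    -- the maximal step
    have hext : ∃ t : ℕ, ∃ p ∈ B, (c p : ℤ) + t * d p < 0 := by
      refine ⟨c q + 1, q, hHB hqH, ?_⟩
      push_cast
      nlinarith
    obtain ⟨p1, hp1, hneg⟩ := Nat.find_spec hext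
    set t0 := Nat.find hext with ht0
    have ht0pos : 0 < t0 := by
      rcases Nat.eq_zero_or_pos t0 with h | h
      · rw [h] at hneg
        push_cast at hneg
        have : (0 : ℤ) ≤ (c p1 : ℤ) := by positivity
        linarith
      · exact h
    obtain ⟨t, ht⟩ : ∃ t, t0 = t + 1 := ⟨t0 - 1, by omega⟩
    have hnn : ∀ p ∈ B, (0 : ℤ) ≤ (c p : ℤ) + t * d p := by
      intro p hp
      by_contra hlt
      push Not at hlt
      have := Nat.find_min' hext ⟨p, hp, hlt⟩
      omega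
    set c' : (Fin k → ℕ) → ℕ := fun p => ((c p : ℤ) + t * d p).toNat with hc'def
    have hc'cast : ∀ p ∈ B, (c' p : ℤ) = (c p : ℤ) + t * d p := by
      intro p hp
      rw [hc'def]
      exact Int.toNat_of_nonneg (hnn p hp)
    have hc'sum : ∑ p ∈ B, c' p • p = y := by
      apply cz_inj
      rw [cz_sum]
      have h1 : ∑ p ∈ B, (c' p : ℤ) • cz p = ∑ p ∈ B, ((c p : ℤ) • cz p + (t : ℤ) • (d p • cz p)) := by
        refine Finset.sum_congr rfl fun p hp => ?_
        rw [hc'cast p hp, add_smul, mul_smul]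
      rw [h1, Finset.sum_add_distrib, ← Finset.smul_sum, hsumB, smul_zero, add_zero, ← cz_sum, hc]
    have hlt : (B.filter (fun p => M0 k m ≤ c' p)).card < H.card := by
      apply Finset.card_lt_card
      have hp1H : p1 ∈ H := by
        by_contra hnot
        rw [hd0 p1 hnot, mul_zero, add_zero] at hneg
        have : (0 : ℤ) ≤ (c p1 : ℤ) := by positivity
        linarith
      refine Finset.ssubset_iff_subset_ne.mpr ⟨?_, ?_⟩
      · intro p hp
        obtain ⟨hpB, hpc⟩ := Finset.mem_filter.mp hp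
        by_contra hnot
        have h1 : (c' p : ℤ) = (c p : ℤ) := by
          rw [hc'cast p hpB, hd0 p hnot, mul_zero, add_zero]
        have h2 : c' p = c p := by exact_mod_cast h1
        exact hnot (Finset.mem_filter.mpr ⟨hpB, by rw [← h2]; exact hpc⟩)
      · intro heq
        rw [← heq] at hp1H
        have h1 := (Finset.mem_filter.mp hp1H).2
        have h2 : (c' p1 : ℤ) = (c p1 : ℤ) + t * d p1 := hc'cast p1 hp1
        have h3 := hdM p1
        rw [ht] at hneg
        push_cast at hneg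
        have h4 : -d p1 ≤ (M0 k m : ℤ) := (neg_le_abs _).trans h3
        have h5 : ((M0 k m : ℕ) : ℤ) ≤ (c' p1 : ℤ) := by exact_mod_cast h1
        nlinarith
    exact absurd (hmin c' hc'sum) (not_le.mpr hlt)
  refine ⟨H, ∑ p ∈ B \ H, c p • p, c, ?_, hLI, ?_, ?_, ?_⟩
  · intro p hp
    rw [← hBP]
    exact hHB hp
  · refine AddSubmonoid.sum_mem _ fun p hp => AddSubmonoid.nsmul_mem _
      (AddSubmonoid.subset_closure ?_) _
    rw [← hBP]
    exact (Finset.mem_sdiff.mp hp).1
  · intro j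
    rw [Finset.sum_apply]
    have h1 : ∀ p ∈ B \ H, (c p • p) j ≤ M0 k m * m := by
      intro p hp
      obtain ⟨hpB, hpH⟩ := Finset.mem_sdiff.mp hp
      have h2 : c p ≤ M0 k m := by
        by_contra hlt
        push Not at hlt
        exact hpH (Finset.mem_filter.mpr ⟨hpB, hlt.le⟩)
      rw [Pi.smul_apply, smul_eq_mul]
      exact Nat.mul_le_mul h2 (hBm p hpB j)
    refine (Finset.sum_le_card_nsmul _ _ _ h1).trans ?_
    rw [smul_eq_mul]
    unfold R0
    have h2 : (B \ H).card ≤ (m + 1) ^ k := (Finset.card_le_card Finset.sdiff_subset).trans hBcard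
    calc (B \ H).card * (M0 k m * m) ≤ (m + 1) ^ k * (M0 k m * m) := Nat.mul_le_mul_right _ h2
      _ = (m + 1) ^ k * M0 k m * m := by ring
  · rw [← hc, Finset.sum_sdiff hHB]

end Pool.Agent.K1H56.JA
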